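import Mathlib
import Pool.Agent.TH378.CW.Base
set_option autoImplicit false

/-! Job 1041 (CW-J5a): Hopf measure of a Hermitian shell. -/

namespace Pool.Agent.TH209.CW

open MeasureTheory Metric Set
open Pool.Agent.TH378.CW
open scoped Real RealInnerProductSpace ENNReal

/-- push forward of planar measure under the squared norm -/
theorem push1 (g : ℝ → ℝ≥0∞) (hg : Measurable g) :
    ∫⁻ a : ℂ, g (‖a‖ ^ 2) = ENNReal.ofReal π * ∫⁻ r in Ioi (0 : ℝ), g r := by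
  have hpi := Real.pi_pos
  rw [← Complex.lintegral_comp_polarCoord_symm (fun a : ℂ => g (‖a‖ ^ 2))]
  have e : (polarCoord.target : Set (ℝ × ℝ)) = Ioi (0 : ℝ) ×ˢ Ioo (-π) π := rfl
  have h1 : ∀ p ∈ (polarCoord.target : Set (ℝ × ℝ)),
      ENNReal.ofReal p.1 • g (‖Complex.polarCoord.symm p‖ ^ 2) =
        ENNReal.ofReal p.1 * g (p.1 ^ 2) := by
    intro p hp
    rw [Complex.norm_polarCoord_symm, smul_eq_mul, sq_abs]
  rw [setLIntegral_congr_fun (by rw [e]; exact measurableSet_Ioi.prod measurableSet_Ioo) h1, e,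
    Measure.volume_eq_prod, ← Measure.prod_restrict, lintegral_prod _ (by fun_prop)]
  simp only [lintegral_const, Measure.restrict_apply MeasurableSet.univ, univ_inter,
    Real.volume_Ioo]
  rw [lintegral_mul_const' _ _ ENNReal.ofReal_ne_top]
  have himg : (fun x : ℝ => x ^ 2) '' Ioi 0 = Ioi 0 := by
    ext r
    constructor
    · rintro ⟨x, hx, rfl⟩
      exact pow_pos (mem_Ioi.1 hx) 2
    · intro hr
      exact ⟨√r, Real.sqrt_pos.2 hr, Real.sq_sqrt (le_of_lt hr)⟩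
  have hinj : InjOn (fun x : ℝ => x ^ 2) (Ioi 0) := by
    intro x hx y hy h
    exact (pow_left_inj₀ (le_of_lt hx) (le_of_lt hy) two_ne_zero).1 h
  have h2 : ∫⁻ r in Ioi (0 : ℝ), g r = ∫⁻ x in Ioi (0 : ℝ), ENNReal.ofReal |2 * x| * g (x ^ 2) := by
    conv_lhs => rw [← himg]
    exact lintegral_image_eq_lintegral_abs_deriv_mul measurableSet_Ioi
      (fun x _ => by simpa using (hasDerivAt_pow 2 x).hasDerivWithinAt) hinj g
  have h3 : ∫⁻ x in Ioi (0 : ℝ), ENNReal.ofReal |2 * x| * g (x ^ 2) =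
      2 * ∫⁻ x in Ioi (0 : ℝ), ENNReal.ofReal x * g (x ^ 2) := by
    rw [← lintegral_const_mul' _ _ (by norm_num)]
    apply setLIntegral_congr_fun measurableSet_Ioi
    intro x hx
    simp only
    rw [abs_of_pos (mul_pos two_pos (mem_Ioi.1 hx)), ENNReal.ofReal_mul (by norm_num), mul_assoc]
    norm_num
  rw [h2, h3, mul_comm, ← mul_assoc]
  congr 1
  rw [show π - -π = π * 2 by ring, ENNReal.ofReal_mul hpi.le]
  norm_num

theorem push2 (f : ℝ × ℝ → ℝ≥0∞) (hf : Measurable f) :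
    ∫⁻ p : ℂ × ℂ, f (‖p.1‖ ^ 2, ‖p.2‖ ^ 2) =
      ENNReal.ofReal π ^ 2 * ∫⁻ p in Ioi (0 : ℝ) ×ˢ Ioi (0 : ℝ), f p := by
  rw [Measure.volume_eq_prod, lintegral_prod _ (by fun_prop)]
  have h1 : ∀ a : ℂ, ∫⁻ b : ℂ, f (‖a‖ ^ 2, ‖b‖ ^ 2) =
      ENNReal.ofReal π * ∫⁻ r in Ioi (0 : ℝ), f (‖a‖ ^ 2, r) := by
    intro a
    exact push1 (fun r => f (‖a‖ ^ 2, r)) (by fun_prop)
  simp only [h1]
  rw [lintegral_const_mul' _ _ ENNReal.ofReal_ne_top]
  have hm : Measurable (fun s : ℝ => ∫⁻ r in Ioi (0 : ℝ), f (s, r)) :=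
    hf.lintegral_prod_right'
  rw [push1 (fun s => ∫⁻ r in Ioi (0 : ℝ), f (s, r)) hm, pow_two, mul_assoc]
  congr 2
  rw [Measure.volume_eq_prod, ← Measure.prod_restrict, lintegral_prod _ (by fun_prop)]

/-- the linear map `(u, v) ↦ (u, k v)` in the coordinates `u = r₁ + r₂`, `v = r₁ - r₂` -/
noncomputable def Lk (k : ℝ) : ℝ × ℝ →ₗ[ℝ] ℝ × ℝ :=
  Matrix.toLin (.finTwoProd ℝ) (.finTwoProd ℝ)
    !![(1 + k) / 2, (1 - k) / 2; (1 - k) / 2, (1 + k) / 2]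

theorem Lk_apply (k : ℝ) (p : ℝ × ℝ) : Lk k p =
    ((1 + k) / 2 * p.1 + (1 - k) / 2 * p.2, (1 - k) / 2 * p.1 + (1 + k) / 2 * p.2) := by
  unfold Lk
  rw [Matrix.toLin_finTwoProd_apply]

theorem Lk_det (k : ℝ) : LinearMap.det (Lk k) = k := by
  unfold Lk
  rw [LinearMap.det_toLin, Matrix.det_fin_two_of]
  ring

/-- the triangle -/
def T1 : Set (ℝ × ℝ) := {p | 0 ≤ p.1 ∧ 0 ≤ p.2 ∧ p.1 + p.2 < 1}

/-- the part of the triangle where `|r₁ - r₂| ≤ k (r₁ + r₂)` -/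
def Tk (k : ℝ) : Set (ℝ × ℝ) := {p | 0 ≤ p.1 ∧ 0 ≤ p.2 ∧ p.1 + p.2 < 1 ∧
  |p.1 - p.2| ≤ k * (p.1 + p.2)}

theorem Tk_sub (k : ℝ) (hk : 0 ≤ k) : Tk k ⊆ Lk k '' T1 := by
  rintro ⟨r, s⟩ ⟨h1, h2, h3, h4⟩
  simp only at h1 h2 h3 h4
  rcases hk.eq_or_lt with rfl | hk0
  · refine ⟨((r + s) / 2, (r + s) / 2), ⟨by simp only; linarith, by simp only; linarith,
      by simp only; linarith⟩, ?_⟩
    rw [Lk_apply]
    rw [zero_mul, abs_nonpos_iff] at h4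
    ext <;> simp only <;> linarith
  · obtain ⟨h5, h6⟩ := abs_le.1 h4
    have h7 : (r - s) / k ≤ r + s := by
      rw [div_le_iff₀ hk0]
      linarith
    have h8 : -(r + s) ≤ (r - s) / k := by
      rw [le_div_iff₀ hk0]
      linarith
    refine ⟨((r + s + (r - s) / k) / 2, (r + s - (r - s) / k) / 2), ⟨by simp only; linarith,
      by simp only; linarith, by simp only; linarith⟩, ?_⟩
    rw [Lk_apply]
    have h9 : k * ((r - s) / k) = r - s := by field_simp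
    ext <;> simp only <;> linarith

theorem Tk_vol (k : ℝ) (hk : 0 ≤ k) : volume (Tk k) ≤ ENNReal.ofReal k * volume T1 := by
  refine (measure_mono (Tk_sub k hk)).trans ?_
  rw [Measure.addHaar_image_linearMap, Lk_det, abs_of_nonneg hk]

theorem T1_meas : MeasurableSet T1 := by
  unfold T1
  have h1 : MeasurableSet {p : ℝ × ℝ | 0 ≤ p.1} := measurableSet_le measurable_const measurable_fst
  have h2 : MeasurableSet {p : ℝ × ℝ | 0 ≤ p.2} := measurableSet_le measurable_const measurable_snd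
  have h3 : MeasurableSet {p : ℝ × ℝ | p.1 + p.2 < 1} :=
    measurableSet_lt (f := fun p : ℝ × ℝ => p.1 + p.2) (by fun_prop) measurable_const
  exact h1.inter (h2.inter h3)

theorem Tk_meas (k : ℝ) : MeasurableSet (Tk k) := by
  unfold Tk
  have h1 : MeasurableSet {p : ℝ × ℝ | 0 ≤ p.1} := measurableSet_le measurable_const measurable_fst
  have h2 : MeasurableSet {p : ℝ × ℝ | 0 ≤ p.2} := measurableSet_le measurable_const measurable_snd
  have h3 : MeasurableSet {p : ℝ × ℝ | p.1 + p.2 < 1} :=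
    measurableSet_lt (f := fun p : ℝ × ℝ => p.1 + p.2) (by fun_prop) measurable_const
  have h4 : MeasurableSet {p : ℝ × ℝ | |p.1 - p.2| ≤ k * (p.1 + p.2)} :=
    measurableSet_le (f := fun p : ℝ × ℝ => |p.1 - p.2|) (by fun_prop) (by fun_prop)
  exact h1.inter (h2.inter (h3.inter h4))

theorem pair_vol (S : Set (ℝ × ℝ)) (hS : MeasurableSet S)
    (h0 : ∀ p ∈ S, 0 ≤ p.1 ∧ 0 ≤ p.2) :
    volume {p : ℂ × ℂ | (‖p.1‖ ^ 2, ‖p.2‖ ^ 2) ∈ S} = ENNReal.ofReal π ^ 2 * volume S := by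
  have h1 := push2 (S.indicator 1) (measurable_one.indicator hS)
  have hm : MeasurableSet {p : ℂ × ℂ | (‖p.1‖ ^ 2, ‖p.2‖ ^ 2) ∈ S} := by
    have : Measurable (fun p : ℂ × ℂ => (‖p.1‖ ^ 2, ‖p.2‖ ^ 2)) := by fun_prop
    exact this hS
  have e1 : ∀ p : ℂ × ℂ, S.indicator (1 : ℝ × ℝ → ℝ≥0∞) (‖p.1‖ ^ 2, ‖p.2‖ ^ 2) =
      {p : ℂ × ℂ | (‖p.1‖ ^ 2, ‖p.2‖ ^ 2) ∈ S}.indicator 1 p := by
    intro p
    by_cases hp : (‖p.1‖ ^ 2, ‖p.2‖ ^ 2) ∈ S
    · rw [indicator_of_mem hp, indicator_of_mem (show p ∈ {p : ℂ × ℂ |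
        (‖p.1‖ ^ 2, ‖p.2‖ ^ 2) ∈ S} from hp)]
      rfl
    · rw [indicator_of_notMem hp, indicator_of_notMem (show p ∉ {p : ℂ × ℂ |
        (‖p.1‖ ^ 2, ‖p.2‖ ^ 2) ∈ S} from hp)]
  rw [lintegral_congr e1, lintegral_indicator_one hm] at h1
  rw [h1, lintegral_indicator_one hS, Measure.restrict_apply hS]
  congr 1
  have h2 : (Ici (0 : ℝ) ×ˢ Ici (0 : ℝ) : Set (ℝ × ℝ)) =ᵐ[volume] Ioi (0 : ℝ) ×ˢ Ioi (0 : ℝ) := by
    rw [Measure.volume_eq_prod]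
    exact Measure.set_prod_ae_eq Ioi_ae_eq_Ici.symm Ioi_ae_eq_Ici.symm
  have h3 : S = S ∩ Ici (0 : ℝ) ×ˢ Ici (0 : ℝ) := by
    ext p
    exact ⟨fun h => ⟨h, h0 p h⟩, fun h => h.1⟩
  conv_rhs => rw [h3]
  exact (measure_congr ((ae_eq_refl S).inter h2)).symm

/-- the quaternion with given coordinates -/
def mkH (a b c d : ℝ) : H := ⟨a, b, c, d⟩

@[simp] theorem mkH_re (a b c d : ℝ) : (mkH a b c d).re = a := rfl
@[simp] theorem mkH_i (a b c d : ℝ) : (mkH a b c d).imI = b := rfl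
@[simp] theorem mkH_j (a b c d : ℝ) : (mkH a b c d).imJ = c := rfl
@[simp] theorem mkH_k (a b c d : ℝ) : (mkH a b c d).imK = d := rfl

/-- the coordinates -/
noncomputable def Phi : (ℂ × ℂ) ≃ₗ[ℝ] H where
  toFun p := mkH p.1.re p.1.im p.2.re p.2.im
  invFun y := (⟨y.re, y.imI⟩, ⟨y.imJ, y.imK⟩)
  left_inv p := rfl
  right_inv y := rfl
  map_add' p q := rfl
  map_smul' t p := by
    ext <;> simp

instance : (volume : Measure (ℂ × ℂ)).IsAddHaarMeasure :=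
  Measure.prod.instIsAddHaarMeasure _ _

theorem Phi_vol (c : ℝ≥0∞) (S : Set H) (hc : (volume : Measure H) =
    c • (volume : Measure (ℂ × ℂ)).map (Phi.toContinuousLinearEquiv)) (hS : MeasurableSet S) :
    volume S = c * volume {p : ℂ × ℂ | mkH p.1.re p.1.im p.2.re p.2.im ∈ S} := by
  rw [hc, Measure.smul_apply, Measure.map_apply
    (Phi.toContinuousLinearEquiv.continuous.measurable) hS]
  rfl

theorem nsq (y : H) : ‖y‖ ^ 2 = y.re ^ 2 + y.imI ^ 2 + y.imJ ^ 2 + y.imK ^ 2 := by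
  rw [pow_two, ← Quaternion.normSq_eq_norm_mul_self, Quaternion.normSq_def']

theorem model (k : ℝ) (hk : 0 ≤ k) :
    volume {y ∈ ball (0 : H) 1 | |y.re ^ 2 + y.imI ^ 2 - y.imJ ^ 2 - y.imK ^ 2| ≤ k * ‖y‖ ^ 2} ≤
      ENNReal.ofReal k * volume (ball (0 : H) 1) := by
  have : ((volume : Measure (ℂ × ℂ)).map (Phi.toContinuousLinearEquiv)).IsAddHaarMeasure :=
    Phi.toContinuousLinearEquiv.isAddHaarMeasure_map _
  obtain ⟨c, hc⟩ : ∃ c : ℝ≥0∞, (volume : Measure H) =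
    c • (volume : Measure (ℂ × ℂ)).map (Phi.toContinuousLinearEquiv) :=
    ⟨Measure.addHaarScalarFactor (volume : Measure H)
      ((volume : Measure (ℂ × ℂ)).map (Phi.toContinuousLinearEquiv)),
      Measure.isAddLeftInvariant_eq_smul _ _⟩
  have hm : MeasurableSet {y ∈ ball (0 : H) 1 |
      |y.re ^ 2 + y.imI ^ 2 - y.imJ ^ 2 - y.imK ^ 2| ≤ k * ‖y‖ ^ 2} := by
    apply measurableSet_ball.inter
    have hcl : IsClosed {y : H |
        |y.re ^ 2 + y.imI ^ 2 - y.imJ ^ 2 - y.imK ^ 2| ≤ k * ‖y‖ ^ 2} := by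
      apply isClosed_le
      · exact ((((Quaternion.continuous_re.pow 2).add (Quaternion.continuous_imI.pow 2)).sub
          (Quaternion.continuous_imJ.pow 2)).sub (Quaternion.continuous_imK.pow 2)).abs
      · fun_prop
    exact hcl.measurableSet
  rw [Phi_vol c _ hc hm, Phi_vol c _ hc measurableSet_ball]
  have nC : ∀ z : ℂ, ‖z‖ ^ 2 = z.re ^ 2 + z.im ^ 2 := by
    intro z
    rw [← Complex.normSq_eq_norm_sq, Complex.normSq_apply]
    ring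
  have hb : ∀ p : ℂ × ℂ, mkH p.1.re p.1.im p.2.re p.2.im ∈ ball (0 : H) 1 ↔
      ‖p.1‖ ^ 2 + ‖p.2‖ ^ 2 < 1 := by
    intro p
    rw [mem_ball_zero_iff, ← sq_lt_one_iff₀ (norm_nonneg _), nsq, nC, nC]
    simp only [mkH_re, mkH_i, mkH_j, mkH_k]
    constructor <;> intro h <;> linarith
  have e1 : {p : ℂ × ℂ | mkH p.1.re p.1.im p.2.re p.2.im ∈ {y ∈ ball (0 : H) 1 |
      |y.re ^ 2 + y.imI ^ 2 - y.imJ ^ 2 - y.imK ^ 2| ≤ k * ‖y‖ ^ 2}} =
      {p : ℂ × ℂ | (‖p.1‖ ^ 2, ‖p.2‖ ^ 2) ∈ Tk k} := by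
    ext p
    simp only [mem_ofPred_eq, hb, Tk]
    rw [nsq]
    simp only [mkH_re, mkH_i, mkH_j, mkH_k]
    have e2 : p.1.re ^ 2 + p.1.im ^ 2 - p.2.re ^ 2 - p.2.im ^ 2 = ‖p.1‖ ^ 2 - ‖p.2‖ ^ 2 := by
      rw [nC, nC]; ring
    have e3 : p.1.re ^ 2 + p.1.im ^ 2 + p.2.re ^ 2 + p.2.im ^ 2 = ‖p.1‖ ^ 2 + ‖p.2‖ ^ 2 := by
      rw [nC, nC]; ring
    rw [e2, e3]
    constructor
    · rintro ⟨h1, h2⟩
      exact ⟨by positivity, by positivity, h1, h2⟩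
    · rintro ⟨-, -, h1, h2⟩
      exact ⟨h1, h2⟩
  have e2 : {p : ℂ × ℂ | mkH p.1.re p.1.im p.2.re p.2.im ∈ ball (0 : H) 1} =
      {p : ℂ × ℂ | (‖p.1‖ ^ 2, ‖p.2‖ ^ 2) ∈ T1} := by
    ext p
    simp only [mem_ofPred_eq, hb, T1]
    constructor
    · intro h1
      exact ⟨by positivity, by positivity, h1⟩
    · rintro ⟨-, -, h1⟩
      exact h1
  rw [e1, e2, pair_vol _ (Tk_meas k) (fun p hp => ⟨hp.1, hp.2.1⟩),
    pair_vol _ T1_meas (fun p hp => ⟨hp.1, hp.2.1⟩)]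
  calc c * (ENNReal.ofReal π ^ 2 * volume (Tk k)) ≤
        c * (ENNReal.ofReal π ^ 2 * (ENNReal.ofReal k * volume T1)) := by
        gcongr
        exact Tk_vol k hk
    _ = _ := by ring

theorem inn (a b : H) : ⟪a, b⟫ =
    a.re * b.re + a.imI * b.imI + a.imJ * b.imJ + a.imK * b.imK := by
  rw [Quaternion.inner_def]
  simp [Quaternion.re_mul]

/-- Hopf coordinates -/
def h1 (y : H) : ℝ := y.re ^ 2 + y.imI ^ 2 - y.imJ ^ 2 - y.imK ^ 2
def h2 (y : H) : ℝ := 2 * (y.imI * y.imJ - y.re * y.imK)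
def h3 (y : H) : ℝ := 2 * (y.re * y.imJ + y.imI * y.imK)

theorem pr_eq (c y : H) : pr c y =
    (‖c‖ ^ 2 * ‖y‖ ^ 2 + (h1 c * h1 y + h2 c * h2 y + h3 c * h3 y)) / 2 := by
  have hq : (qI : H) = mkH 0 1 0 0 := rfl
  unfold pr h1 h2 h3
  rw [inn, inn, nsq, nsq, hq]
  simp only [Quaternion.re_mul, Quaternion.imI_mul, Quaternion.imJ_mul, Quaternion.imK_mul,
    mkH_re, mkH_i, mkH_j, mkH_k]
  ring

theorem hsq (y : H) : h1 y ^ 2 + h2 y ^ 2 + h3 y ^ 2 = (‖y‖ ^ 2) ^ 2 := by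
  unfold h1 h2 h3
  rw [nsq]
  ring

theorem rot_eq (n1 n2 n3 : ℝ) (hn : n1 ^ 2 + n2 ^ 2 + n3 ^ 2 = 1) (y : H) :
    h1 (y * star (mkH (1 + n1) 0 n3 (-n2))) =
      2 * (1 + n1) * (n1 * h1 y + n2 * h2 y + n3 * h3 y) := by
  unfold h1 h2 h3
  simp only [Quaternion.re_mul, Quaternion.imI_mul, Quaternion.imJ_mul, Quaternion.imK_mul,
    Quaternion.re_star, Quaternion.imI_star, Quaternion.imJ_star, Quaternion.imK_star,
    mkH_re, mkH_i, mkH_j, mkH_k]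
  linear_combination (-(y.re ^ 2 + y.imI ^ 2 - y.imJ ^ 2 - y.imK ^ 2)) * hn

/-- right multiplication by a unit quaternion -/
noncomputable def rmul (g : H) (hg : ‖g‖ = 1) : H ≃ₗᵢ[ℝ] H :=
  LinearIsometry.toLinearIsometryEquiv
    { toFun := fun y => y * g
      map_add' := fun x y => add_mul x y g
      map_smul' := fun t y => smul_mul_assoc t y g
      norm_map' := fun y => by
        change ‖y * g‖ = ‖y‖
        rw [norm_mul, hg, mul_one] } rfl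

theorem rmul_apply (g : H) (hg : ‖g‖ = 1) (y : H) : rmul g hg y = y * g := rfl

theorem h1_smul (t : ℝ) (y : H) : h1 (t • y) = t ^ 2 * h1 y := by
  unfold h1
  simp only [Quaternion.re_smul, Quaternion.imI_smul, Quaternion.imJ_smul, Quaternion.imK_smul,
    smul_eq_mul]
  ring

theorem shell_pos (n1 n2 n3 : ℝ) (hn : n1 ^ 2 + n2 ^ 2 + n3 ^ 2 = 1) (h0 : 0 ≤ n1) (k : ℝ)
    (hk : 0 ≤ k) :
    volume {y ∈ ball (0 : H) 1 | |n1 * h1 y + n2 * h2 y + n3 * h3 y| ≤ k * ‖y‖ ^ 2} ≤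
      ENNReal.ofReal k * volume (ball (0 : H) 1) := by
  set t : ℝ := (√(2 * (1 + n1)))⁻¹ with ht
  have ht2 : t ^ 2 * (2 * (1 + n1)) = 1 := by
    rw [ht, inv_pow, Real.sq_sqrt (by linarith)]
    exact inv_mul_cancel₀ (by linarith)
  set g : H := t • star (mkH (1 + n1) 0 n3 (-n2)) with hg
  have hg1 : ‖g‖ = 1 := by
    have h1 : ‖g‖ ^ 2 = 1 := by
      rw [hg, norm_smul, norm_star, mul_pow, nsq, Real.norm_eq_abs, sq_abs]
      simp only [mkH_re, mkH_i, mkH_j, mkH_k]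
      linear_combination ht2 + t ^ 2 * hn
    nlinarith [norm_nonneg g, sq_nonneg (‖g‖ - 1)]
  have hrot : ∀ y : H, h1 (y * g) = n1 * h1 y + n2 * h2 y + n3 * h3 y := by
    intro y
    rw [hg, mul_smul_comm, h1_smul, rot_eq n1 n2 n3 hn, ← mul_assoc, ← mul_assoc, mul_assoc (t ^ 2),
      ht2, one_mul]
  have hR := (rmul g hg1).measurePreserving
  set S : Set H := {y ∈ ball (0 : H) 1 | |y.re ^ 2 + y.imI ^ 2 - y.imJ ^ 2 - y.imK ^ 2| ≤
    k * ‖y‖ ^ 2} with hS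
  have e : {y ∈ ball (0 : H) 1 | |n1 * h1 y + n2 * h2 y + n3 * h3 y| ≤ k * ‖y‖ ^ 2} =
      (rmul g hg1) ⁻¹' S := by
    ext y
    simp only [hS, mem_preimage, mem_ofPred_eq, mem_ball_zero_iff]
    have e1 : ‖rmul g hg1 y‖ = ‖y‖ := (rmul g hg1).norm_map y
    have e2 := hrot y
    unfold h1 at e2
    rw [e1, rmul_apply, e2]
    rfl
  rw [e]
  have e3 : volume ((rmul g hg1) ⁻¹' S) = volume S :=
    hR.measure_preimage_equiv (f := (rmul g hg1).toHomeomorph.toMeasurableEquiv) S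
  rw [e3]
  exact model k hk

theorem shell (n1 n2 n3 : ℝ) (hn : n1 ^ 2 + n2 ^ 2 + n3 ^ 2 = 1) (k : ℝ) (hk : 0 ≤ k) :
    volume {y ∈ ball (0 : H) 1 | |n1 * h1 y + n2 * h2 y + n3 * h3 y| ≤ k * ‖y‖ ^ 2} ≤
      ENNReal.ofReal k * volume (ball (0 : H) 1) := by
  rcases le_total 0 n1 with h0 | h0
  · exact shell_pos n1 n2 n3 hn h0 k hk
  · have h := shell_pos (-n1) (-n2) (-n3) (by linarith) (by linarith) k hk
    have e : ∀ y : H, |-n1 * h1 y + -n2 * h2 y + -n3 * h3 y| =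
        |n1 * h1 y + n2 * h2 y + n3 * h3 y| := by
      intro y
      rw [← abs_neg]
      congr 1
      ring
    simpa only [e] using h

/-- Job 1041. -/
theorem hopf (c w : H) (hc : ‖c‖ = 1) (hw : ‖w‖ = 1) (A B : ℝ) (hB : 0 ≤ B) (hAB : B < A)
    (hs : A + B ≤ 4) :
    volume {y ∈ ball (0 : H) 1 | (A + B - 2) * ‖y‖ ^ 2 ≤ A * pr c y + B * pr w y ∧
        A * pr c y + B * pr w y ≤ 2 * ‖y‖ ^ 2} ≤
      ENNReal.ofReal ((4 - A - B) / (A - B)) * volume (ball (0 : H) 1) := by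
  set N1 := A * h1 c + B * h1 w with hN1
  set N2 := A * h2 c + B * h2 w with hN2
  set N3 := A * h3 c + B * h3 w with hN3
  have hcc := hsq c
  have hww := hsq w
  have hcw := pr_eq c w
  have hpr : 0 ≤ pr c w := by unfold pr; positivity
  rw [hc] at hcc
  rw [hw] at hww
  rw [hc, hw] at hcw
  have hNN : (A - B) ^ 2 ≤ N1 ^ 2 + N2 ^ 2 + N3 ^ 2 := by
    have e : N1 ^ 2 + N2 ^ 2 + N3 ^ 2 = A ^ 2 * (h1 c ^ 2 + h2 c ^ 2 + h3 c ^ 2) +
        B ^ 2 * (h1 w ^ 2 + h2 w ^ 2 + h3 w ^ 2) +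
        2 * (A * B) * (h1 c * h1 w + h2 c * h2 w + h3 c * h3 w) := by
      rw [hN1, hN2, hN3]; ring
    have e2 : h1 c * h1 w + h2 c * h2 w + h3 c * h3 w = 2 * pr c w - 1 := by
      rw [hcw]; ring
    rw [e, hcc, hww, e2]
    have : 0 ≤ A * B := by nlinarith
    nlinarith [mul_nonneg this hpr]
  set M := √(N1 ^ 2 + N2 ^ 2 + N3 ^ 2) with hM
  have hMge : A - B ≤ M := Real.le_sqrt_of_sq_le hNN
  have hAB' : 0 < A - B := by linarith
  have hM0 : 0 < M := by linarith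
  have hM2 : M ^ 2 = N1 ^ 2 + N2 ^ 2 + N3 ^ 2 := Real.sq_sqrt (by positivity)
  have hn : (N1 / M) ^ 2 + (N2 / M) ^ 2 + (N3 / M) ^ 2 = 1 := by
    rw [div_pow, div_pow, div_pow, ← add_div, ← add_div, ← hM2]
    exact div_self (by positivity)
  have hk : 0 ≤ (4 - A - B) / (A - B) := div_nonneg (by linarith) hAB'.le
  refine le_trans (measure_mono ?_) (shell _ _ _ hn _ hk)
  rintro y ⟨hy, hy1, hy2⟩
  refine ⟨hy, ?_⟩
  rw [pr_eq c y, pr_eq w y, hc, hw] at hy1 hy2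
  have e : N1 / M * h1 y + N2 / M * h2 y + N3 / M * h3 y =
      (N1 * h1 y + N2 * h2 y + N3 * h3 y) / M := by ring
  have hX : |N1 * h1 y + N2 * h2 y + N3 * h3 y| ≤ (4 - A - B) * ‖y‖ ^ 2 := by
    rw [abs_le]
    have e2 : N1 * h1 y + N2 * h2 y + N3 * h3 y =
        A * (h1 c * h1 y + h2 c * h2 y + h3 c * h3 y) +
          B * (h1 w * h1 y + h2 w * h2 y + h3 w * h3 y) := by
      rw [hN1, hN2, hN3]; ring
    constructor <;> nlinarith
  rw [e, abs_div, abs_of_pos hM0, div_le_iff₀ hM0]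
  refine hX.trans ?_
  have h4 : 0 ≤ 4 - A - B := by linarith
  have h5 : (4 - A - B) ≤ (4 - A - B) / (A - B) * M := by
    rw [div_mul_eq_mul_div, le_div_iff₀ hAB']
    exact mul_le_mul_of_nonneg_left hMge h4
  calc (4 - A - B) * ‖y‖ ^ 2 ≤ ((4 - A - B) / (A - B) * M) * ‖y‖ ^ 2 :=
        mul_le_mul_of_nonneg_right h5 (by positivity)
    _ = _ := by ring

end Pool.Agent.TH209.CW
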