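import Mathlib
import Pool.Agent.TH378.CW.Base
import Pool.Agent.Helper734.IB.PL
import Pool.Agent.TH209.CW.Hopf
set_option autoImplicit false

/-! Job 1038 (CW-J2): packing inequality for normal cones. -/

namespace Pool.Agent.TH209.CW

open MeasureTheory Metric Set
open Pool.Agent.TH378.CW
open scoped Real RealInnerProductSpace ENNReal

/-- three-dimensional Euclidean space -/
abbrev E3 := EuclideanSpace ℝ (Fin 3)

theorem isodiam (A : Set E3) (hA : MeasurableSet A) (hd : ∀ x ∈ A, ∀ y ∈ A, ‖x - y‖ ≤ 1) :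
    volume A ≤ volume (ball (0 : E3) 1) / 8 := by
  have hV : volume (closedBall (0 : E3) (1 / 2)) = volume (ball (0 : E3) 1) / 8 := by
    rw [Measure.addHaar_closedBall _ _ (by norm_num), ENNReal.div_eq_inv_mul]
    congr 1
    rw [finrank_euclideanSpace_fin, ← ENNReal.ofReal_ofNat 8,
      ← ENNReal.ofReal_inv_of_pos (by norm_num)]
    norm_num
  rw [← hV]
  have hL := PiLp.volume_preserving_toLp (Fin 3)
  set A' : Set E3 := {x | -x ∈ A} with hA'
  have hA'm : MeasurableSet A' := measurable_neg hA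
  have hvA' : volume A' = volume A := Measure.measure_preimage_neg volume A
  set C : Set E3 := closedBall (0 : E3) (1 / 2) with hC
  have hCm : MeasurableSet C := measurableSet_closedBall
  have key := Pool.Agent.Helper734.IB.pln 3 (fun s => A.indicator 1 (WithLp.toLp 2 s))
    (fun s => A'.indicator 1 (WithLp.toLp 2 s)) (fun s => C.indicator 1 (WithLp.toLp 2 s))
    ((measurable_one.indicator hA).comp hL.measurable)
    ((measurable_one.indicator hA'm).comp hL.measurable)
    ((measurable_one.indicator hCm).comp hL.measurable) ?_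
  · rw [hL.lintegral_comp (measurable_one.indicator hA),
      hL.lintegral_comp (measurable_one.indicator hA'm),
      hL.lintegral_comp (measurable_one.indicator hCm), lintegral_indicator_one hA,
      lintegral_indicator_one hA'm, lintegral_indicator_one hCm, hvA', ← pow_two] at key
    exact (ENNReal.pow_le_pow_left_iff (by norm_num)).1 key
  · intro s t
    by_cases hs : (WithLp.toLp 2 s : E3) ∈ A
    · by_cases ht : (WithLp.toLp 2 t : E3) ∈ A'
      · have hmem : (WithLp.toLp 2 (fun i => (s i + t i) / 2) : E3) ∈ C := by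
          rw [hC, mem_closedBall_zero_iff]
          have e : (WithLp.toLp 2 (fun i => (s i + t i) / 2) : E3) =
              (1 / 2 : ℝ) • ((WithLp.toLp 2 s : E3) - -(WithLp.toLp 2 t : E3)) := by
            ext i
            simp
            ring
          rw [e, norm_smul]
          have := hd _ hs _ ht
          norm_num
          rw [sub_neg_eq_add] at this
          linarith
        rw [indicator_of_mem hs, indicator_of_mem ht, indicator_of_mem hmem]
        simp
      · rw [indicator_of_notMem ht, mul_zero]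
        exact zero_le
    · rw [indicator_of_notMem hs, zero_mul]
      exact zero_le

/-- imaginary part -/
noncomputable def Pim : H →ₗ[ℝ] E3 where
  toFun h := !₂[h.imI, h.imJ, h.imK]
  map_add' x y := by
    ext i
    fin_cases i <;> simp
  map_smul' t x := by
    ext i
    fin_cases i <;> simp

theorem Pim_norm (h : H) : ‖Pim h‖ ≤ ‖h‖ := by
  have h1 : ‖Pim h‖ ^ 2 ≤ ‖h‖ ^ 2 := by
    rw [EuclideanSpace.norm_sq_eq, nsq, Fin.sum_univ_three]
    simp only [Pim, LinearMap.coe_mk, AddHom.coe_mk, Real.norm_eq_abs, sq_abs]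
    simp
    nlinarith [sq_nonneg h.re]
  exact (pow_le_pow_iff_left₀ (norm_nonneg _) (norm_nonneg _) two_ne_zero).1 h1

/-- the lift of a point of the ball to the unit sphere -/
noncomputable def u0 (y : E3) : H := mkH (√(1 - ‖y‖ ^ 2)) (y 0) (y 1) (y 2)

theorem u0_norm (y : E3) (hy : ‖y‖ < 1) : ‖u0 y‖ = 1 := by
  have h1 : ‖u0 y‖ ^ 2 = 1 := by
    have h2 : ‖y‖ ^ 2 = y 0 ^ 2 + y 1 ^ 2 + y 2 ^ 2 := by
      rw [EuclideanSpace.norm_sq_eq, Fin.sum_univ_three]
      simp only [Real.norm_eq_abs, sq_abs]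
    unfold u0
    rw [nsq]
    simp only [mkH_re, mkH_i, mkH_j, mkH_k]
    rw [Real.sq_sqrt (by nlinarith [norm_nonneg y]), h2]
    ring
  nlinarith [norm_nonneg (u0 y), sq_nonneg (‖u0 y‖ - 1)]

theorem u0_re (y : E3) (hy : ‖y‖ < 1) : 0 < (u0 y).re := by
  unfold u0
  rw [mkH_re]
  apply Real.sqrt_pos.2
  nlinarith [norm_nonneg y]

theorem Pim_u0 (y : E3) : Pim (u0 y) = y := by
  ext i
  fin_cases i <;> simp [Pim, u0]

theorem u0_cont : Continuous u0 := by
  have : u0 = fun y : E3 => (√(1 - ‖y‖ ^ 2)) • mkH 1 0 0 0 + (y 0) • mkH 0 1 0 0 +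
      (y 1) • mkH 0 0 1 0 + (y 2) • mkH 0 0 0 1 := by
    funext y
    unfold u0
    ext <;> simp
  rw [this]
  fun_prop

/-- the point opposite to `q` -/
theorem opp {K : Set H} (hK : Wid K) {q u : H} (hq : q ∈ K) (hu : ‖u‖ = 1) (hn : u ∈ Nc K q) :
    q - u ∈ K := by
  obtain ⟨q', hq', hqu⟩ := hK.dia u hu
  have h1 : ⟪u, q' - q⟫ ≤ 0 := hn q' hq'
  have h2 := hK.diam q hq (q' - u) hqu
  have h3 : ‖(q - q') + u‖ ^ 2 ≤ 1 := by
    have e : q - (q' - u) = (q - q') + u := by abel
    rw [e] at h2
    nlinarith [norm_nonneg ((q - q') + u)]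
  rw [norm_add_sq_real, hu, real_inner_comm] at h3
  have h4 : ⟪u, q' - q⟫ = -⟪u, q - q'⟫ := by
    rw [← inner_neg_right, neg_sub]
  have h5 : ‖q - q'‖ ^ 2 ≤ 0 := by linarith
  have h6 : q - q' = 0 := by
    rw [← norm_eq_zero]
    nlinarith [norm_nonneg (q - q')]
  rw [sub_eq_zero.1 h6]
  exact hqu

theorem opp_nc {K : Set H} (hK : Wid K) {q u : H} (hq : q ∈ K) (hu : ‖u‖ = 1) :
    -u ∈ Nc K (q - u) := by
  intro x hx
  have h1 := hK.diam x hx q hq
  have h2 : -1 ≤ ⟪u, x - q⟫ := by
    have h3 := abs_real_inner_le_norm u (x - q)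
    rw [hu, one_mul] at h3
    have h4 := (abs_le.1 h3).1
    linarith
  have e : x - (q - u) = (x - q) + u := by abel
  rw [e, inner_neg_left, inner_add_right, real_inner_self_eq_norm_sq, hu]
  linarith

theorem uniq {K : Set H} (hK : Wid K) {q q' v : H} (hq : q ∈ K) (hq' : q' ∈ K) (hv : ‖v‖ = 1)
    (h : v ∈ Nc K q) (h' : v ∈ Nc K q') : q = q' := by
  have h1 := opp hK hq' hv h'
  have h2 := hK.diam q hq (q' - v) h1
  have h3 : ‖(q - q') + v‖ ^ 2 ≤ 1 := by
    have e : q - (q' - v) = (q - q') + v := by abel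
    rw [e] at h2
    nlinarith [norm_nonneg ((q - q') + v)]
  rw [norm_add_sq_real, hv, real_inner_comm] at h3
  have h4 : ⟪v, q' - q⟫ ≤ 0 := h q' hq'
  have h5 : ⟪v, q' - q⟫ = -⟪v, q - q'⟫ := by
    rw [← inner_neg_right, neg_sub]
  have h6 : ‖q - q'‖ ^ 2 ≤ 0 := by linarith
  have h7 : q - q' = 0 := by
    rw [← norm_eq_zero]
    nlinarith [norm_nonneg (q - q')]
  exact sub_eq_zero.1 h7

theorem Nc_smul {K : Set H} {q u : H} (h : u ∈ Nc K q) (t : ℝ) (ht : 0 ≤ t) : t • u ∈ Nc K q := by
  intro x hx
  rw [real_inner_smul_left]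
  exact mul_nonpos_of_nonneg_of_nonpos ht (h x hx)

theorem Nc_comb {K : Set H} {q u v : H} (h : u ∈ Nc K q) (h' : v ∈ Nc K q) (s t : ℝ) (hs : 0 ≤ s)
    (ht : 0 ≤ t) : s • u + t • v ∈ Nc K q := by
  intro x hx
  rw [inner_add_left, real_inner_smul_left, real_inner_smul_left]
  have := mul_nonpos_of_nonneg_of_nonpos hs (h x hx)
  have := mul_nonpos_of_nonneg_of_nonpos ht (h' x hx)
  linarith

/-- two unit vectors in the interiors of normal cones at `a + u`, `a + u'` -/
theorem no_two {K : Set H} (hK : Wid K) {a u u' : H} (hu : ‖u‖ = 1) (hu' : ‖u'‖ = 1)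
    (ha : a ∈ K) (hau : a + u ∈ K)
    (hi : u ∈ interior (Nc K (a + u))) (h1 : -u ∈ Nc K a) (h2 : -u' ∈ Nc K a)
    (hne : u' ≠ -u) : u = u' := by
  by_contra hcon
  have hcont : Continuous (fun s : ℝ => (1 - s) • u + s • u') := by fun_prop
  have h0 : (fun s : ℝ => (1 - s) • u + s • u') 0 ∈ interior (Nc K (a + u)) := by
    simpa using hi
  have hev : ∀ᶠ s in nhds (0 : ℝ), (1 - s) • u + s • u' ∈ interior (Nc K (a + u)) :=
    hcont.continuousAt.eventually (isOpen_interior.mem_nhds h0)
  have hev2 : ∀ᶠ s in nhdsWithin (0 : ℝ) (Ioi 0),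
      (1 - s) • u + s • u' ∈ interior (Nc K (a + u)) := hev.filter_mono nhdsWithin_le_nhds
  have hev3 : ∀ᶠ s in nhdsWithin (0 : ℝ) (Ioi 0), s ∈ Ioo (0 : ℝ) 1 :=
    Ioo_mem_nhdsGT one_pos
  obtain ⟨s, hs, hs01⟩ := (hev2.and hev3).exists
  obtain ⟨hs0, hs1⟩ := hs01
  set w := (1 - s) • u + s • u' with hw
  have hw0 : w ≠ 0 := by
    intro h
    rw [hw] at h
    have h3 : (1 - s) • u = -(s • u') := eq_neg_of_add_eq_zero_left h
    have h4 : ‖(1 - s) • u‖ = ‖s • u'‖ := by rw [h3, norm_neg]
    rw [norm_smul, norm_smul, hu, hu', mul_one, mul_one, Real.norm_eq_abs, Real.norm_eq_abs,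
      abs_of_pos (by linarith), abs_of_pos hs0] at h4
    have h5 : s = 1 / 2 := by linarith
    rw [h5] at h3
    apply hne
    have h6 : (1 / 2 : ℝ) • u' = (1 / 2 : ℝ) • (-u) := by
      rw [smul_neg, show (1 / 2 : ℝ) = 1 - 1 / 2 by norm_num, h3]
      norm_num
    exact smul_right_injective H (by norm_num : (1 / 2 : ℝ) ≠ 0) h6
  have hwn : 0 < ‖w‖ := norm_pos_iff.2 hw0
  set v := ‖w‖⁻¹ • w with hv
  have hv1 : ‖v‖ = 1 := by
    rw [hv, norm_smul, norm_inv, norm_norm, inv_mul_cancel₀ hwn.ne']
  have h3 : v ∈ Nc K (a + u) := Nc_smul (interior_subset hs) _ (by positivity)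
  have h4 : -v ∈ Nc K a := by
    have h5 := Nc_comb h1 h2 (‖w‖⁻¹ * (1 - s)) (‖w‖⁻¹ * s)
      (mul_nonneg (by positivity) (by linarith)) (mul_nonneg (by positivity) hs0.le)
    have e : -v = (‖w‖⁻¹ * (1 - s)) • (-u) + (‖w‖⁻¹ * s) • (-u') := by
      rw [hv, hw, smul_add, smul_neg, smul_neg, smul_smul, smul_smul]
      abel
    rw [e]
    exact h5
  have h5 : a + v ∈ K := by
    have := opp hK ha (u := -v) (by rw [norm_neg, hv1]) h4
    rwa [sub_neg_eq_add] at this
  have h6 : v ∈ Nc K (a + v) := by
    have := opp_nc hK ha (u := -v) (by rw [norm_neg, hv1])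
    rwa [sub_neg_eq_add, neg_neg] at this
  have h7 : a + u = a + v := uniq hK hau h5 hv1 h3 h6
  have h8 : u = v := add_left_cancel h7
  -- `w` is a multiple of `u`
  have h9 : w = ‖w‖ • u := by
    rw [h8, hv, smul_smul, mul_inv_cancel₀ hwn.ne', one_smul]
  have h10 : s • u' = (‖w‖ - (1 - s)) • u := by
    have : w = (1 - s) • u + s • u' := rfl
    rw [sub_smul, ← h9, this]
    abel
  have h11 : ‖s • u'‖ = ‖(‖w‖ - (1 - s)) • u‖ := by rw [h10]
  rw [norm_smul, norm_smul, hu, hu', mul_one, mul_one, Real.norm_eq_abs, Real.norm_eq_abs,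
    abs_of_pos hs0] at h11
  rcases abs_eq_abs.1 (by rw [abs_of_pos hs0]; exact h11 : |s| = |‖w‖ - (1 - s)|) with h12 | h12
  · apply hcon
    rw [← h12] at h10
    exact (smul_right_injective H hs0.ne' h10).symm
  · apply hne
    have h13 : s • u' = s • (-u) := by
      have e : ‖w‖ - (1 - s) = -s := by linarith
      rw [h10, smul_neg, ← neg_smul, e]
    exact smul_right_injective H hs0.ne' h13

/-- the slice of the interior of the normal cone -/
def Wq (K : Set H) (q x : H) : Set E3 := {y | ‖y‖ < 1 ∧ x * u0 y ∈ interior (Nc K q)}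

theorem Wq_open (K : Set H) (q x : H) : IsOpen (Wq K q x) := by
  have h1 : IsOpen {y : E3 | ‖y‖ < 1} := isOpen_lt continuous_norm continuous_const
  have h2 : Continuous (fun y : E3 => x * u0 y) := continuous_const.mul u0_cont
  exact h1.inter (isOpen_interior.preimage h2)

theorem star_mul_self' {x : H} (hx : ‖x‖ = 1) (w : H) : star x * (x * w) = w := by
  rw [← mul_assoc, Quaternion.star_mul_self, Quaternion.normSq_eq_norm_mul_self, hx]
  simp

theorem mul_star_self' {x : H} (hx : ‖x‖ = 1) (w : H) : x * (star x * w) = w := by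
  rw [← mul_assoc, Quaternion.self_mul_star, Quaternion.normSq_eq_norm_mul_self, hx]
  simp

theorem slice {K : Set H} (hK : Wid K) (F : Finset H) (hF : ∀ q ∈ F, q ∈ K) (x : H)
    (hx : ‖x‖ = 1) :
    ∑ q ∈ F, volume (Wq K q x) ≤ volume (ball (0 : E3) 1) / 8 := by
  set A : H → Set E3 := fun q => (fun z => Pim (star x * q) - z) ⁻¹' Wq K q x with hA
  have hAm : ∀ q, MeasurableSet (A q) := fun q =>
    ((Wq_open K q x).preimage (continuous_const.sub continuous_id)).measurableSet
  have hAv : ∀ q, volume (A q) = volume (Wq K q x) := fun q =>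
    (Measure.measurePreserving_sub_left volume (Pim (star x * q))).measure_preimage
      (Wq_open K q x).measurableSet.nullMeasurableSet
  have hlin : ∀ z q, Pim (star x * (q - x * u0 (Pim (star x * q) - z))) = z := by
    intro z q
    rw [mul_sub, star_mul_self' hx, map_sub, Pim_u0]
    abel
  have hmem : ∀ q ∈ F, ∀ z ∈ A q, q - x * u0 (Pim (star x * q) - z) ∈ K := by
    intro q hq z hz
    apply opp hK (hF q hq)
    · rw [norm_mul, hx, u0_norm _ hz.1, one_mul]
    · exact interior_subset hz.2
  have hdisj : (F : Set H).PairwiseDisjoint A := by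
    intro q hq q' hq' hne
    rw [Function.onFun, Set.disjoint_left]
    intro z hz hz'
    apply hne
    set y := Pim (star x * q) - z with hy
    set y' := Pim (star x * q') - z with hy'
    have hyn : ‖y‖ < 1 := hz.1
    have hyn' : ‖y'‖ < 1 := hz'.1
    have hui : x * u0 y ∈ interior (Nc K q) := hz.2
    have hui' : x * u0 y' ∈ interior (Nc K q') := hz'.2
    have hu : ‖x * u0 y‖ = 1 := by rw [norm_mul, hx, u0_norm _ hyn, one_mul]
    have hu' : ‖x * u0 y'‖ = 1 := by rw [norm_mul, hx, u0_norm _ hyn', one_mul]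
    have ha := hmem q hq z hz
    have ha' := hmem q' hq' z hz'
    have hinn : ∀ w : H, ⟪x * w, x⟫ = w.re := by
      intro w
      have h1 : ‖x‖ ^ 2 = 1 := by rw [hx, one_pow]
      rw [nsq] at h1
      rw [inn]
      simp only [Quaternion.re_mul, Quaternion.imI_mul, Quaternion.imJ_mul, Quaternion.imK_mul]
      linear_combination w.re * h1
    have hP : Pim (star x * ((q - x * u0 y) - (q' - x * u0 y'))) = 0 := by
      have e1 := hlin z q
      have e2 := hlin z q'
      rw [← hy] at e1
      rw [← hy'] at e2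
      rw [mul_sub, map_sub, e1, e2, sub_self]
    set a := q - x * u0 y with had
    set a' := q' - x * u0 y' with had'
    set t := (star x * (a - a')).re with ht
    have hreal : a - a' = t • x := by
      have e1 : star x * (a - a') = ((t : ℝ) : H) := by
        have h0 := congrArg (fun v : E3 => v 0) hP
        have h1 := congrArg (fun v : E3 => v 1) hP
        have h2 := congrArg (fun v : E3 => v 2) hP
        simp [Pim] at h0 h1 h2
        ext
        · simp [ht]
        · simpa using h0
        · simpa using h1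
        · simpa using h2
      have e2 := mul_star_self' hx (a - a')
      rw [e1] at e2
      rw [← e2]
      rw [Quaternion.mul_coe_eq_smul]
    have hna : -(x * u0 y) ∈ Nc K a := opp_nc hK (hF q hq) hu
    have hna' : -(x * u0 y') ∈ Nc K a' := opp_nc hK (hF q' hq') hu'
    have ht1 : t ≤ 0 := by
      have h1 := hna a' ha'
      have e : a' - a = -(t • x) := by rw [← hreal]; abel
      rw [e, inner_neg_left, inner_neg_right, neg_neg, inner_smul_right, hinn] at h1
      have h2 := u0_re y hyn
      by_contra h3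
      push Not at h3
      have := mul_pos h3 h2
      linarith
    have ht2 : 0 ≤ t := by
      have h1 := hna' a ha
      rw [hreal, inner_neg_left, inner_smul_right, hinn] at h1
      have h2 := u0_re y' hyn'
      by_contra h3
      push Not at h3
      have := mul_neg_of_neg_of_pos h3 h2
      linarith
    have ht0 : t = 0 := le_antisymm ht1 ht2
    rw [ht0, zero_smul] at hreal
    have haa : a = a' := sub_eq_zero.1 hreal
    rw [← haa] at hna'
    have hq1 : q = a + x * u0 y := by rw [had]; abel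
    have hq2 : q' = a + x * u0 y' := by rw [haa, had']; abel
    have hne' : x * u0 y' ≠ -(x * u0 y) := by
      intro h
      have h1 := hinn (u0 y')
      rw [h, inner_neg_left, hinn] at h1
      have h2 := u0_re y hyn
      have h3 := u0_re y' hyn'
      linarith
    have hfin := no_two hK hu hu' ha (by rw [← hq1]; exact hF q hq) (by rw [← hq1]; exact hui)
      hna hna' hne'
    rw [hq1, hq2, hfin]
  calc ∑ q ∈ F, volume (Wq K q x) = ∑ q ∈ F, volume (A q) :=
        Finset.sum_congr rfl (fun q _ => (hAv q).symm)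
    _ = volume (⋃ q ∈ F, A q) := (measure_biUnion_finset hdisj (fun q _ => hAm q)).symm
    _ ≤ _ := by
        apply isodiam _ (F.measurableSet_biUnion (fun q _ => hAm q))
        intro z hz z' hz'
        simp only [mem_iUnion, exists_prop] at hz hz'
        obtain ⟨q, hq, hzq⟩ := hz
        obtain ⟨q', hq', hzq'⟩ := hz'
        have h1 := hK.diam _ (hmem q hq z hzq) _ (hmem q' hq' z' hzq')
        have e : z - z' = Pim (star x * ((q - x * u0 (Pim (star x * q) - z)) -
            (q' - x * u0 (Pim (star x * q') - z')))) := by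
          rw [mul_sub, map_sub, hlin, hlin]
        rw [e]
        refine (Pim_norm _).trans ?_
        rw [norm_mul, norm_star, hx, one_mul]
        exact h1

theorem int_smul (K : Set H) (q u : H) (t : ℝ) (ht : 0 < t) (h : u ∈ interior (Nc K q)) :
    t • u ∈ interior (Nc K q) := by
  rw [mem_interior] at h ⊢
  obtain ⟨S, hS, hSo, hu⟩ := h
  refine ⟨(fun v => t⁻¹ • v) ⁻¹' S, ?_, hSo.preimage (by fun_prop), ?_⟩
  · intro v hv
    have := Nc_smul (hS hv) t ht.le
    rwa [smul_smul, mul_inv_cancel₀ ht.ne', one_smul] at this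
  · rw [mem_preimage, smul_smul, inv_mul_cancel₀ ht.ne', one_smul]
    exact hu

theorem Wq_smul (K : Set H) (q x : H) (t : ℝ) (ht : 0 < t) : Wq K q (t • x) = Wq K q x := by
  ext y
  constructor
  · rintro ⟨h1, h2⟩
    refine ⟨h1, ?_⟩
    have := int_smul K q _ t⁻¹ (inv_pos.2 ht) h2
    rwa [smul_mul_assoc, smul_smul, inv_mul_cancel₀ ht.ne', one_smul] at this
  · rintro ⟨h1, h2⟩
    refine ⟨h1, ?_⟩
    have := int_smul K q _ t ht h2
    rwa [smul_mul_assoc]

/-- the set in the product space -/
def Gq (K : Set H) (q : H) : Set (H × E3) :=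
  {p | ‖p.1‖ < 1 ∧ ‖p.2‖ < 1 ∧ p.1 * u0 p.2 ∈ interior (Nc K q)}

theorem Gq_open (K : Set H) (q : H) : IsOpen (Gq K q) := by
  have h1 : IsOpen {p : H × E3 | ‖p.1‖ < 1} := isOpen_lt (by fun_prop) continuous_const
  have h2 : IsOpen {p : H × E3 | ‖p.2‖ < 1} := isOpen_lt (by fun_prop) continuous_const
  have h3 : Continuous (fun p : H × E3 => p.1 * u0 p.2) :=
    continuous_fst.mul (u0_cont.comp continuous_snd)
  exact h1.inter (h2.inter (isOpen_interior.preimage h3))

instance : SecondCountableTopology H :=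
  Phi.symm.toContinuousLinearEquiv.toHomeomorph.secondCountableTopology

theorem Gq_vol (K : Set H) (q : H) :
    ∫⁻ x in ball (0 : H) 1, volume (Wq K q x) =
      volume (interior (Nc K q) ∩ ball (0 : H) 1) * volume (ball (0 : E3) 1) := by
  have hm := (Gq_open K q).measurableSet
  have h1 := Measure.prod_apply (μ := (volume : Measure H)) (ν := (volume : Measure E3)) hm
  have h2 := Measure.prod_apply_symm (μ := (volume : Measure H)) (ν := (volume : Measure E3)) hm
  rw [h1] at h2
  have e1 : ∫⁻ x in ball (0 : H) 1, volume (Wq K q x) =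
      ∫⁻ x : H, volume (Prod.mk x ⁻¹' Gq K q) := by
    rw [← lintegral_indicator measurableSet_ball]
    apply lintegral_congr
    intro x
    by_cases hx : x ∈ ball (0 : H) 1
    · rw [indicator_of_mem hx]
      congr 1
      ext y
      have := mem_ball_zero_iff.1 hx
      simp only [Wq, Gq, mem_preimage, mem_ofPred_eq, this, true_and]
    · rw [indicator_of_notMem hx]
      have : Prod.mk x ⁻¹' Gq K q = ∅ := by
        ext y
        simp only [Gq, mem_preimage, mem_ofPred_eq, mem_empty_iff_false, iff_false]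
        rintro ⟨h, -⟩
        exact hx (mem_ball_zero_iff.2 h)
      rw [this, measure_empty]
  have e2 : ∫⁻ y : E3, volume ((fun x => (x, y)) ⁻¹' Gq K q) =
      volume (interior (Nc K q) ∩ ball (0 : H) 1) * volume (ball (0 : E3) 1) := by
    have : ∀ y : E3, volume ((fun x => (x, y)) ⁻¹' Gq K q) =
        (ball (0 : E3) 1).indicator
          (fun _ => volume (interior (Nc K q) ∩ ball (0 : H) 1)) y := by
      intro y
      by_cases hy : y ∈ ball (0 : E3) 1
      · rw [indicator_of_mem hy]
        have hy' := mem_ball_zero_iff.1 hy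
        have hu := u0_norm y hy'
        have e : (fun x => (x, y)) ⁻¹' Gq K q =
            (rmul (u0 y) hu) ⁻¹' (interior (Nc K q) ∩ ball (0 : H) 1) := by
          ext x
          simp only [Gq, mem_preimage, mem_ofPred_eq, hy', true_and, mem_inter_iff,
            mem_ball_zero_iff, (rmul (u0 y) hu).norm_map]
          rw [rmul_apply]
          exact and_comm
        rw [e]
        exact (rmul (u0 y) hu).measurePreserving.measure_preimage_equiv
          (f := (rmul (u0 y) hu).toHomeomorph.toMeasurableEquiv) _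
      · rw [indicator_of_notMem hy]
        have : (fun x => (x, y)) ⁻¹' Gq K q = ∅ := by
          ext x
          simp only [Gq, mem_preimage, mem_ofPred_eq, mem_empty_iff_false, iff_false]
          rintro ⟨-, h, -⟩
          exact hy (mem_ball_zero_iff.2 h)
        rw [this, measure_empty]
    rw [lintegral_congr this, lintegral_indicator_const measurableSet_ball]
  rw [e1, h2, e2]

/-- Job 1038. -/
theorem packing {K : Set H} (hK : Wid K) (F : Finset H) (hF : ∀ q ∈ F, q ∈ K) :
    ∑ q ∈ F, volume (interior (Nc K q) ∩ ball (0 : H) 1) ≤ volume (ball (0 : H) 1) / 8 := by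
  set V := volume (ball (0 : E3) 1) with hV
  have hV0 : V ≠ 0 := (measure_ball_pos volume (0 : E3) one_pos).ne'
  have hVt : V ≠ ∞ := measure_ball_lt_top.ne
  have hmeas : ∀ q ∈ F, Measurable (fun x => volume (Wq K q x)) := by
    intro q _
    have h2 : IsOpen {p : H × E3 | ‖p.2‖ < 1} := isOpen_lt (by fun_prop) continuous_const
    have h3 : Continuous (fun p : H × E3 => p.1 * u0 p.2) :=
      continuous_fst.mul (u0_cont.comp continuous_snd)
    exact measurable_measure_prodMk_left (ν := (volume : Measure E3))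
      (h2.inter (isOpen_interior.preimage h3)).measurableSet
  have h1 : (∑ q ∈ F, volume (interior (Nc K q) ∩ ball (0 : H) 1)) * V ≤
      volume (ball (0 : H) 1) / 8 * V := by
    calc (∑ q ∈ F, volume (interior (Nc K q) ∩ ball (0 : H) 1)) * V
        = ∑ q ∈ F, ∫⁻ x in ball (0 : H) 1, volume (Wq K q x) := by
          rw [Finset.sum_mul]
          exact Finset.sum_congr rfl (fun q _ => (Gq_vol K q).symm)
      _ = ∫⁻ x in ball (0 : H) 1, ∑ q ∈ F, volume (Wq K q x) :=
          (lintegral_finsetSum _ hmeas).symm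
      _ ≤ ∫⁻ x in ball (0 : H) 1, V / 8 := by
          apply lintegral_mono_ae
          have hne : ∀ᵐ x ∂(volume.restrict (ball (0 : H) 1)), x ≠ 0 := by
            apply ae_restrict_of_ae
            exact Measure.ae_ne volume 0
          filter_upwards [hne] with x hx
          have hxn : 0 < ‖x‖ := norm_pos_iff.2 hx
          have h2 := slice hK F hF (‖x‖⁻¹ • x)
            (by rw [norm_smul, norm_inv, norm_norm, inv_mul_cancel₀ hxn.ne'])
          simp only [Wq_smul K _ x _ (inv_pos.2 hxn)] at h2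
          exact h2
      _ = V / 8 * volume (ball (0 : H) 1) := by
          rw [setLIntegral_const]
      _ = _ := by
          rw [ENNReal.div_eq_inv_mul, ENNReal.div_eq_inv_mul]
          ring
  exact (ENNReal.mul_le_mul_iff_left hV0 hVt).1 h1

end Pool.Agent.TH209.CW
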